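import Pool.Agent.T9h45.LD.Spec
import Pool.Agent.T9h56.CP.Struct

set_option autoImplicit false

namespace Pool.Agent.T9h56.LD

open Finset Classical Pool.T9h45.CP Pool.T9h45.LD Pool.Agent.T9h56.CP

/-- Piece ST -/
theorem st : SSt := by
  intro V _ G D k hdeg hD hpair
  have hD2 : ∀ x y : ℕ, x ≤ y → x * y ≤ y * y := fun x y h => Nat.mul_le_mul_right _ h
  -- the number of pairs
  have hpairs : ∀ v, ((univ : Finset (V × V)).filter
      (fun a => G.Adj v a.1 ∧ G.Adj v a.2 ∧ G.Adj a.1 a.2)).card =
      ∑ a ∈ univ.filter (fun a => G.Adj v a), co G a v := by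
    intro v
    rw [card_filter, Fintype.sum_prod_type, sum_filter]
    refine sum_congr rfl fun a _ => ?_
    by_cases hva : G.Adj v a
    · rw [if_pos hva]
      unfold co
      rw [cn_eq, card_filter]
      refine sum_congr rfl fun b _ => ?_
      by_cases h1 : G.Adj v b <;> by_cases h2 : G.Adj a b <;> simp [hva, h1, h2]
    · rw [if_neg hva]
      refine sum_eq_zero fun b _ => ?_
      simp [hva]
  have hcard : ∀ v, (univ.filter (fun a => G.Adj v a)).card = cn (fun w => G.Adj v w) :=
    fun v => (cn_eq _).symm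
  have hco1 : ∀ a v, co G a v ≤ cn (fun w => G.Adj v w) := fun a v => cn_mono fun w hw => hw.2
  -- the degrees
  have hlow : ∀ v, D ≤ cn (fun w => G.Adj v w) + k := by
    intro v
    have h1 := hpair v
    rw [hpairs v] at h1
    have h2 : ∑ a ∈ univ.filter (fun a => G.Adj v a), co G a v ≤
        cn (fun w => G.Adj v w) * cn (fun w => G.Adj v w) := by
      refine le_trans (sum_le_sum fun a _ => hco1 a v) ?_
      rw [sum_const, smul_eq_mul, hcard]
    by_contra hcon
    have hcon' : cn (fun w => G.Adj v w) + k + 1 ≤ D := by omega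
    generalize cn (fun w => G.Adj v w) = d at h2 hcon'
    generalize (∑ a ∈ univ.filter (fun a => G.Adj v a), co G a v) = T at h1 h2
    nlinarith
  -- weak neighbours
  have hweak : ∀ v, cn (fun a => G.Adj v a ∧ ¬ (D ≤ co G a v + k)) ≤ k := by
    intro v
    have h1 := hpair v
    rw [hpairs v] at h1
    have h2 : (∑ a ∈ univ.filter (fun a => G.Adj v a), co G a v) +
        (∑ a ∈ univ.filter (fun a => G.Adj v a), if D ≤ co G a v + k then 0 else (k + 1)) ≤
        ∑ a ∈ univ.filter (fun a => G.Adj v a), D := by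
      rw [← sum_add_distrib]
      apply sum_le_sum
      intro a _
      have h3 := le_trans (hco1 a v) (hdeg v)
      split_ifs with h4
      · omega
      · omega
    have h3 : (∑ a ∈ univ.filter (fun a => G.Adj v a), if D ≤ co G a v + k then 0 else (k + 1)) =
        cn (fun a => G.Adj v a ∧ ¬ (D ≤ co G a v + k)) * (k + 1) := by
      rw [cn_eq, card_filter, sum_mul, sum_filter]
      refine sum_congr rfl fun a _ => ?_
      by_cases h4 : G.Adj v a <;> by_cases h5 : D ≤ co G a v + k <;> simp [h4, h5]
    rw [h3, sum_const, smul_eq_mul, hcard] at h2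
    have h4 : cn (fun w => G.Adj v w) * D ≤ D * D := Nat.mul_le_mul_right _ (hdeg v)
    have h5 : cn (fun a => G.Adj v a ∧ ¬ (D ≤ co G a v + k)) * (k + 1) ≤ k ^ 2 := by
      have h6 : D ^ 2 = D * D := sq D
      omega
    by_contra hcon
    have hcon' : k + 1 ≤ cn (fun a => G.Adj v a ∧ ¬ (D ≤ co G a v + k)) := by omega
    have h7 := Nat.mul_le_mul_right (k + 1) hcon'
    nlinarith
  -- the relation
  have hbig : ∀ u v, 2 * k + 1 ≤ co G u v → D ≤ co G u v + 2 * k := by
    intro u v huv
    have h1 : ∃ w, G.Adj u w ∧ G.Adj v w ∧ D ≤ co G w u + k ∧ D ≤ co G w v + k := by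
      have h2 := cn_split (fun w => G.Adj u w ∧ G.Adj v w) (fun w => D ≤ co G w u + k)
      have h3 := cn_split (fun w => (G.Adj u w ∧ G.Adj v w) ∧ D ≤ co G w u + k)
        (fun w => D ≤ co G w v + k)
      have h4 : cn (fun w => (G.Adj u w ∧ G.Adj v w) ∧ ¬ (D ≤ co G w u + k)) ≤ k :=
        le_trans (cn_mono fun w hw => ⟨hw.1.1, hw.2⟩) (hweak u)
      have h5 : cn (fun w => ((G.Adj u w ∧ G.Adj v w) ∧ D ≤ co G w u + k) ∧
          ¬ (D ≤ co G w v + k)) ≤ k :=
        le_trans (cn_mono fun w hw => ⟨hw.1.1.2, hw.2⟩) (hweak v)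
      have h6 : cn (fun w => G.Adj u w ∧ G.Adj v w) = co G u v := rfl
      obtain ⟨w, hw⟩ := cn_pos_of_exists (P := fun w => ((G.Adj u w ∧ G.Adj v w) ∧
        D ≤ co G w u + k) ∧ D ≤ co G w v + k) (by omega)
      exact ⟨w, hw.1.1.1, hw.1.1.2, hw.1.2, hw.2⟩
    obtain ⟨w, -, -, hwu, hwv⟩ := h1
    have h2 := inter_large (fun x => G.Adj w x) (fun x => G.Adj u x) (fun x => G.Adj v x)
    have h2' := hdeg w
    have h3 : cn (fun x => G.Adj w x ∧ G.Adj u x) = co G w u := rfl
    have h4 : cn (fun x => G.Adj w x ∧ G.Adj v x) = co G w v := rfl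
    have h5 : cn (fun x => G.Adj u x ∧ G.Adj v x) = co G u v := rfl
    omega
  have hself : ∀ v, co G v v = cn (fun w => G.Adj v w) :=
    fun v => cn_congr fun w => ⟨fun hw => hw.1, fun hw => ⟨hw, hw⟩⟩
  let r : Setoid V :=
    { r := fun u v => 2 * k + 1 ≤ co G u v
      iseqv :=
        { refl := fun v => by
            have h1 := hlow v
            rw [hself]
            omega
          symm := fun {u v} huv => by rw [co_comm]; exact huv
          trans := fun {u v w} huv hvw => by
            have h1 := hbig u v huv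
            have h2 := hbig v w hvw
            have h3 := inter_large (fun x => G.Adj v x) (fun x => G.Adj u x) (fun x => G.Adj w x)
            have h3' := hdeg v
            have h4 : cn (fun x => G.Adj v x ∧ G.Adj u x) = co G u v := by
              rw [co_comm]
              rfl
            have h5 : cn (fun x => G.Adj v x ∧ G.Adj w x) = co G v w := rfl
            have h6 : cn (fun x => G.Adj u x ∧ G.Adj w x) = co G u w := rfl
            omega } }
  let cl : V → V := fun v => (Quotient.mk r v).out
  have hcl : ∀ u v, cl u = cl v ↔ 2 * k + 1 ≤ co G u v := by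
    intro u v
    constructor
    · intro huv
      have h1 : Quotient.mk r u = Quotient.mk r v := by
        have h2 := congrArg (Quotient.mk r) huv
        simpa only [cl, Quotient.out_eq] using h2
      exact Quotient.exact h1
    · intro huv
      have h1 : Quotient.mk r u = Quotient.mk r v := Quotient.sound huv
      show (Quotient.mk r u).out = (Quotient.mk r v).out
      rw [h1]
  have hE : ∀ v, cE G cl v ≤ k := by
    intro v
    refine le_trans (cn_mono ?_) (hweak v)
    intro w hw
    refine ⟨hw.1, fun hco => hw.2 ?_⟩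
    exact (hcl w v).2 (by omega)
  have hNlow : ∀ v, D + 1 ≤ cN cl v + 2 * k := by
    intro v
    have h1 := hlow v
    have h2 := cn_split (fun w => G.Adj v w) (fun w => D ≤ co G w v + k)
    have h3 := hweak v
    have h5 := cn_split (fun w => cl w = cl v) (fun w => w = v)
    have h6 : 1 ≤ cn (fun w => cl w = cl v ∧ w = v) :=
      one_le_cn (P := fun w => cl w = cl v ∧ w = v) v ⟨rfl, rfl⟩
    have h7 : cn (fun w => G.Adj v w ∧ D ≤ co G w v + k) ≤
        cn (fun w => cl w = cl v ∧ ¬ w = v) := by
      apply cn_mono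
      intro w hw
      constructor
      · have h8 : D ≤ co G w v + k := hw.2
        exact (hcl w v).2 (ar2 h8 hD)
      · intro hwv
        exact G.ne_of_adj hw.1 hwv.symm
    have h8 : cN cl v = cn (fun w => cl w = cl v) := rfl
    omega
  have hNup : ∀ v, cN cl v ≤ D + 4 * k := by
    intro v0
    have h1 : cn (fun w => cl w = cl v0) * (D - 2 * k) ≤
        ∑ u ∈ univ.filter (fun w => cl w = cl v0), co G u v0 := by
      unfold cn
      rw [← smul_eq_mul, ← sum_const]
      apply sum_le_sum
      intro u hu
      rw [mem_filter, hcl] at hu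
      have := hbig u v0 hu.2
      omega
    have h2 : ∑ u ∈ univ.filter (fun w => cl w = cl v0), co G u v0 ≤ D * D := by
      have h3 : ∀ u : V, co G u v0 = ∑ w ∈ univ.filter (fun w => G.Adj v0 w),
          if G.Adj u w then 1 else 0 := by
        intro u
        unfold co cn
        rw [card_filter, sum_filter]
        refine sum_congr rfl fun w _ => ?_
        by_cases ha : G.Adj u w <;> by_cases hb : G.Adj v0 w <;> simp [ha, hb]
      rw [sum_congr rfl fun u _ => h3 u, sum_comm]
      have h4 : ∀ w ∈ univ.filter (fun w => G.Adj v0 w),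
          (∑ u ∈ univ.filter (fun w => cl w = cl v0), if G.Adj u w then 1 else 0) ≤ D := by
        intro w _
        refine le_trans ?_ (hdeg w)
        unfold cn
        rw [card_filter]
        refine le_trans (sum_le_sum_of_subset (filter_subset _ _)) (sum_le_sum ?_)
        intro u _
        by_cases ha : G.Adj u w
        · simp [ha, ha.symm]
        · simp [ha]
      refine le_trans (sum_le_sum h4) ?_
      rw [sum_const, smul_eq_mul]
      exact Nat.mul_le_mul_right _ (hdeg v0)
    exact ar (le_trans h1 h2) hD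
  refine ⟨cl, fun v => le_trans (hE v) (by omega), ?_, fun v => ?_, fun v => ?_⟩
  · intro v
    have h1 := cn_split (fun w => cl w = cl v) (fun w => G.Adj v w)
    have h2 := cn_split (fun w => cl w = cl v ∧ ¬ G.Adj v w) (fun w => w = v)
    have h3 : 1 ≤ cn (fun w => (cl w = cl v ∧ ¬ G.Adj v w) ∧ w = v) :=
      one_le_cn (P := fun w => (cl w = cl v ∧ ¬ G.Adj v w) ∧ w = v) v ⟨⟨rfl, G.loopless.irrefl v⟩, rfl⟩
    have h4 : cNon G cl v = cn (fun w => (cl w = cl v ∧ ¬ G.Adj v w) ∧ ¬ w = v) :=
      cn_congr fun w => by tauto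
    have h5 := cn_split (fun w => G.Adj v w) (fun w => cl w = cl v)
    have h6 : cn (fun w => G.Adj v w ∧ cl w = cl v) = cn (fun w => cl w = cl v ∧ G.Adj v w) :=
      cn_congr fun w => and_comm
    have h7 : cn (fun w => G.Adj v w ∧ ¬ cl w = cl v) = cE G cl v := rfl
    have h8 := hE v
    have h9 := hNup v
    have h10 := hlow v
    have h11 : cN cl v = cn (fun w => cl w = cl v) := rfl
    omega
  · have := hNlow v
    omega
  · have := hNup v
    omega

end Pool.Agent.T9h56.LD
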