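import Pool.Agent.T9h45.LD.Spec
import Pool.Agent.T9h56.CP.Struct

set_option autoImplicit false

namespace Pool.Agent.T9h56.LD

open Finset Classical Pool.T9h45.CP Pool.T9h45.LD Pool.Agent.T9h56.CP

section

variable {V : Type} [Fintype V]

/-- invariant subsets for an involution without fixed points -/
lemma exists_inv (σ : V → V) (hσ : ∀ v, σ (σ v) = v) (P : Finset V) (hP : ∀ w ∈ P, σ w ∈ P)
    (hfix : ∀ w ∈ P, σ w ≠ w) (m : ℕ) : 2 * m ≤ P.card →
    ∃ S ⊆ P, (∀ w ∈ S, σ w ∈ S) ∧ S.card = 2 * m := by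
  induction m with
  | zero =>
    intro _
    exact ⟨∅, empty_subset _, fun w hw => absurd hw (notMem_empty w), by simp⟩
  | succ m ih =>
    intro hm
    obtain ⟨S, hSP, hS, hc⟩ := ih (by omega)
    obtain ⟨x, hx⟩ : (P \ S).Nonempty := by
      rw [← card_pos, card_sdiff_of_subset hSP]
      omega
    rw [mem_sdiff] at hx
    have hσx : σ x ∉ S := fun h => hx.2 (by
      have := hS _ h
      rwa [hσ] at this)
    have hne : σ x ≠ x := hfix x hx.1
    refine ⟨insert x (insert (σ x) S), ?_, ?_, ?_⟩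
    · intro w hw
      rw [mem_insert, mem_insert] at hw
      rcases hw with rfl | rfl | hw
      · exact hx.1
      · exact hP _ hx.1
      · exact hSP hw
    · intro w hw
      rw [mem_insert, mem_insert] at hw ⊢
      rcases hw with rfl | rfl | hw
      · exact Or.inr (Or.inl rfl)
      · exact Or.inl (hσ _)
      · exact Or.inr (Or.inr (hS _ hw))
    · rw [card_insert_of_notMem, card_insert_of_notMem hσx, hc]
      · ring
      · rw [mem_insert]
        rintro (h | h)
        · exact hne h.symm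
        · exact hx.2 h

lemma even_inv (σ : V → V) (hσ : ∀ v, σ (σ v) = v) (P : Finset V) (hP : ∀ w ∈ P, σ w ∈ P)
    (hfix : ∀ w ∈ P, σ w ≠ w) : ∃ m, P.card = 2 * m := by
  obtain ⟨S, hSP, hS, hc⟩ := exists_inv σ hσ P hP hfix (P.card / 2) (by omega)
  by_contra hcon
  push Not at hcon
  have h1 : (P \ S).card = 1 := by
    rw [card_sdiff_of_subset hSP]
    have := hcon (P.card / 2)
    omega
  obtain ⟨x, hx⟩ := card_eq_one.1 h1
  have h2 : x ∈ P \ S := by rw [hx]; exact mem_singleton_self x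
  rw [mem_sdiff] at h2
  have h3 : σ x ∈ P \ S := by
    rw [mem_sdiff]
    refine ⟨hP x h2.1, fun h => h2.2 ?_⟩
    have := hS _ h
    rwa [hσ] at this
  rw [hx, mem_singleton] at h3
  exact hfix x h2.1 h3

lemma cls_big (C : Finset V) (σ : V → V) (hσ : ∀ v, σ (σ v) = v) (hσC : ∀ w ∈ C, σ w ∈ C) (t : ℕ)
    (hP : (C.filter fun w => σ w ≠ w).card = 4 * t) (hC : 20 * t ≤ C.card) :
    ∃ S ⊆ C, (∀ w ∈ C, σ w ∈ S ↔ w ∈ S) ∧ (S.filter fun w => σ w ≠ w).card = 2 * t ∧
      ((C.filter fun w => σ w ≠ w) \ S).card = 2 * t ∧ S.card = (C.card - 8 * t) / 2 := by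
  set P := C.filter fun w => σ w ≠ w with hPdef
  have hPC : P ⊆ C := filter_subset _ _
  have hPσ : ∀ w ∈ P, σ w ∈ P := by
    intro w hw
    rw [hPdef, mem_filter] at hw ⊢
    refine ⟨hσC w hw.1, fun h => hw.2 ?_⟩
    rw [hσ] at h
    exact h.symm
  obtain ⟨S1, hS1P, hS1, hS1c⟩ := exists_inv σ hσ P hPσ (fun w hw => (mem_filter.1 hw).2) t
    (by omega)
  obtain ⟨S2, hS2, hS2c⟩ := exists_subset_card_eq (s := C \ P) (n := (C.card - 8 * t) / 2 - 2 * t)
    (by rw [card_sdiff_of_subset hPC]; omega)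
  have hdis : Disjoint S1 S2 := by
    rw [disjoint_left]
    intro w hw hw'
    exact (mem_sdiff.1 (hS2 hw')).2 (hS1P hw)
  have hfix2 : ∀ w ∈ S2, σ w = w := by
    intro w hw
    have h1 := mem_sdiff.1 (hS2 hw)
    by_contra hne
    exact h1.2 (mem_filter.2 ⟨h1.1, hne⟩)
  have hinv : ∀ w, w ∈ S1 ∪ S2 → σ w ∈ S1 ∪ S2 := by
    intro w hw
    rw [mem_union] at hw ⊢
    rcases hw with hw | hw
    · exact Or.inl (hS1 w hw)
    · rw [hfix2 w hw]
      exact Or.inr hw
  have hfil : (S1 ∪ S2).filter (fun w => σ w ≠ w) = S1 := by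
    ext w
    rw [mem_filter, mem_union]
    constructor
    · rintro ⟨hw | hw, hne⟩
      · exact hw
      · exact absurd (hfix2 w hw) hne
    · intro hw
      exact ⟨Or.inl hw, (mem_filter.1 (hS1P hw)).2⟩
  refine ⟨S1 ∪ S2, ?_, ?_, ?_, ?_, ?_⟩
  · intro w hw
    rw [mem_union] at hw
    rcases hw with hw | hw
    · exact hPC (hS1P hw)
    · exact (mem_sdiff.1 (hS2 hw)).1
  · intro w _
    refine ⟨fun h => ?_, hinv w⟩
    have := hinv _ h
    rwa [hσ] at this
  · rw [hfil, hS1c]
  · have h1 : P \ (S1 ∪ S2) = P \ S1 := by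
      ext w
      rw [mem_sdiff, mem_sdiff, mem_union]
      constructor
      · rintro ⟨h1, h2⟩
        exact ⟨h1, fun h => h2 (Or.inl h)⟩
      · rintro ⟨h1, h2⟩
        refine ⟨h1, ?_⟩
        rintro (h | h)
        · exact h2 h
        · exact (mem_sdiff.1 (hS2 h)).2 h1
    rw [h1, card_sdiff_of_subset hS1P]
    omega
  · rw [card_union_of_disjoint hdis, hS1c, hS2c]
    omega

lemma cls_small (C : Finset V) (σ : V → V) (hσ : ∀ v, σ (σ v) = v) (hσC : ∀ w ∈ C, σ w ∈ C) (t : ℕ)
    (hP : (C.filter fun w => σ w ≠ w).card < 4 * t) (hC : 20 * t ≤ C.card) (Bd : Finset V)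
    (hBC : Bd ⊆ C) (hB : 2 * Bd.card ≤ (C.filter fun w => σ w ≠ w).card)
    (hB' : ∀ w ∈ Bd, σ w = w) :
    ∃ I ⊆ C, (C.filter fun w => σ w ≠ w) ⊆ I ∧ Bd ⊆ I ∧ (∀ w ∈ C, σ w ∈ I ↔ w ∈ I) ∧
      2 * I.card = 8 * t + (C.filter fun w => σ w ≠ w).card := by
  set P := C.filter fun w => σ w ≠ w with hPdef
  have hPC : P ⊆ C := filter_subset _ _
  have hPσ : ∀ w ∈ P, σ w ∈ P := by
    intro w hw
    rw [hPdef, mem_filter] at hw ⊢
    refine ⟨hσC w hw.1, fun h => hw.2 ?_⟩
    rw [hσ] at h
    exact h.symm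
  obtain ⟨m, hm⟩ := even_inv σ hσ P hPσ (fun w hw => (mem_filter.1 hw).2)
  have hBsub : Bd ⊆ C \ P := by
    intro w hw
    rw [mem_sdiff]
    exact ⟨hBC hw, fun h => (mem_filter.1 h).2 (hB' w hw)⟩
  obtain ⟨E, hBE, hEC, hEc⟩ := exists_subsuperset_card_eq hBsub (n := 4 * t - m) (by omega)
    (by rw [card_sdiff_of_subset hPC]; omega)
  have hdis : Disjoint P E := by
    rw [disjoint_left]
    intro w hw hw'
    exact (mem_sdiff.1 (hEC hw')).2 hw
  have hfix2 : ∀ w ∈ E, σ w = w := by
    intro w hw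
    have h1 := mem_sdiff.1 (hEC hw)
    by_contra hne
    exact h1.2 (mem_filter.2 ⟨h1.1, hne⟩)
  have hinv : ∀ w, w ∈ P ∪ E → σ w ∈ P ∪ E := by
    intro w hw
    rw [mem_union] at hw ⊢
    rcases hw with hw | hw
    · exact Or.inl (hPσ w hw)
    · rw [hfix2 w hw]
      exact Or.inr hw
  refine ⟨P ∪ E, ?_, subset_union_left, fun w hw => mem_union_right _ (hBE hw), ?_, ?_⟩
  · intro w hw
    rw [mem_union] at hw
    rcases hw with hw | hw
    · exact hPC hw
    · exact (mem_sdiff.1 (hEC hw)).1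
  · intro w _
    refine ⟨fun h => ?_, hinv w⟩
    have := hinv _ h
    rwa [hσ] at this
  · rw [card_union_of_disjoint hdis, hEc]
    omega

end

/-- Piece T2 -/
theorem t2 : ST2 := by
  intro V _ cl σ big bad t hbig hσ hcl hpb hps hbad hN
  have key : ∀ i : V, ∃ I S : Finset V, ∀ v, cl v = i →
      (σ v ∈ I ↔ v ∈ I) ∧ (σ v ∈ S ↔ v ∈ S) ∧ (¬ big v → bad v → v ∈ I) ∧ (σ v ≠ v → v ∈ I) ∧
      (big v → v ∈ I → σ v ≠ v) ∧
      (big v → cn (fun w => cl w = i ∧ w ∈ S ∧ w ∈ I) = 2 * t ∧
        cn (fun w => cl w = i ∧ ¬ w ∈ S ∧ w ∈ I) = 2 * t ∧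
        cn (fun w => w ∈ S ∧ cl w = i) = (cN cl v - 8 * t) / 2) ∧
      (¬ big v → v ∈ I → ¬ v ∈ S) ∧
      (¬ big v → 2 * cn (fun w => cl w = i ∧ w ∈ I) = 8 * t + cPair cl σ v) := by
    intro i
    by_cases hi : ∃ v0, cl v0 = i
    · obtain ⟨v0, hv0⟩ := hi
      set C : Finset V := univ.filter fun w => cl w = i with hCdef
      have hmC : ∀ w, w ∈ C ↔ cl w = i := fun w => by rw [hCdef, mem_filter]; simp
      have hσC : ∀ w ∈ C, σ w ∈ C := by
        intro w hw
        rw [hmC] at hw ⊢
        rw [hcl, hw]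
      have hcN : ∀ v, cl v = i → cN cl v = C.card := by
        intro v hv
        unfold cN
        rw [hv, cn_eq]
      have hcP : ∀ v, cl v = i → cPair cl σ v = (C.filter fun w => σ w ≠ w).card := by
        intro v hv
        unfold cPair
        rw [hv, cn_eq, hCdef, filter_filter]
      have hbi : ∀ v, cl v = i → (big v ↔ big v0) := fun v hv => hbig v v0 (by rw [hv, hv0])
      by_cases hb : big v0
      · obtain ⟨S, hSC, hSσ, hS1, hS2, hS3⟩ := cls_big C σ hσ hσC t
          (by rw [← hcP v0 hv0, hpb v0 hb]; ring) (by rw [← hcN v0 hv0]; exact hN v0)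
        refine ⟨C.filter fun w => σ w ≠ w, S, ?_⟩
        intro v hv
        have hvC : v ∈ C := (hmC v).2 hv
        refine ⟨?_, hSσ v hvC, ?_, ?_, ?_, ?_, ?_, ?_⟩
        · constructor
          · intro h
            have h2 := (mem_filter.1 h).2
            rw [hσ] at h2
            exact mem_filter.2 ⟨hvC, fun h' => h2 h'.symm⟩
          · intro h
            have h2 := (mem_filter.1 h).2
            refine mem_filter.2 ⟨hσC v hvC, ?_⟩
            rw [hσ]
            exact fun h' => h2 h'.symm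
        · intro h
          exact absurd ((hbi v hv).2 hb) h
        · intro h
          exact mem_filter.2 ⟨hvC, h⟩
        · intro _ h
          exact (mem_filter.1 h).2
        · intro _
          refine ⟨?_, ?_, ?_⟩
          · rw [cn_eq, ← hS1]
            congr 1
            ext w
            simp only [mem_filter, mem_univ, true_and]
            constructor
            · rintro ⟨h1, h2, h3, h4⟩
              exact ⟨h2, h4⟩
            · rintro ⟨h1, h2⟩
              exact ⟨(hmC w).1 (hSC h1), h1, hSC h1, h2⟩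
          · rw [cn_eq, ← hS2]
            congr 1
            ext w
            simp only [mem_filter, mem_univ, true_and, mem_sdiff]
            constructor
            · rintro ⟨h1, h2, h3, h4⟩
              exact ⟨⟨h3, h4⟩, h2⟩
            · rintro ⟨⟨h1, h2⟩, h3⟩
              exact ⟨(hmC w).1 h1, h3, h1, h2⟩
          · rw [hcN v hv, ← hS3, cn_eq]
            congr 1
            ext w
            simp only [mem_filter, mem_univ, true_and]
            constructor
            · rintro ⟨h1, h2⟩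
              exact h1
            · intro h1
              exact ⟨h1, (hmC w).1 (hSC h1)⟩
        · intro h
          exact absurd ((hbi v hv).2 hb) h
        · intro h
          exact absurd ((hbi v hv).2 hb) h
      · obtain ⟨h1, h2⟩ := hps v0 hb
        have hbd : cn (fun w => cl w = cl v0 ∧ bad w) = (C.filter fun w => bad w).card := by
          rw [cn_eq, hCdef, filter_filter, hv0]
        rw [hcP v0 hv0] at h1 h2
        rw [hbd] at h2
        obtain ⟨I, hIC, hPI, hBI, hIσ, hIc⟩ := cls_small C σ hσ hσC t (by omega)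
          (by rw [← hcN v0 hv0]; exact hN v0) (C.filter fun w => bad w) (filter_subset _ _) h2
          (fun w hw => hbad w (mem_filter.1 hw).2)
        refine ⟨I, ∅, ?_⟩
        intro v hv
        have hvC : v ∈ C := (hmC v).2 hv
        have hnb : ¬ big v := fun h => hb ((hbi v hv).1 h)
        refine ⟨hIσ v hvC, by simp, ?_, ?_, ?_, ?_, ?_, ?_⟩
        · intro _ h
          exact hBI (mem_filter.2 ⟨hvC, h⟩)
        · intro h
          exact hPI (mem_filter.2 ⟨hvC, h⟩)
        · intro h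
          exact absurd h hnb
        · intro h
          exact absurd h hnb
        · intro _ _ h
          exact absurd h (notMem_empty v)
        · intro _
          rw [hcP v hv, ← hIc, cn_eq]
          congr 2
          ext w
          simp only [mem_filter, mem_univ, true_and]
          constructor
          · rintro ⟨h3, h4⟩
            exact h4
          · intro h3
            exact ⟨(hmC w).1 (hIC h3), h3⟩
    · refine ⟨∅, ∅, fun v hv => absurd ⟨v, hv⟩ hi⟩
  choose I S hIS using key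
  refine ⟨fun v => v ∈ I (cl v), fun v => v ∈ S (cl v), ?_, ?_, ?_, ?_, ?_, ?_, ?_, ?_⟩
  · intro v
    show σ v ∈ I (cl (σ v)) ↔ v ∈ I (cl v)
    rw [hcl]
    exact (hIS (cl v) v rfl).1
  · intro v
    show σ v ∈ S (cl (σ v)) ↔ v ∈ S (cl v)
    rw [hcl]
    exact (hIS (cl v) v rfl).2.1
  · intro v h1 h2
    exact (hIS (cl v) v rfl).2.2.1 h1 h2
  · intro v h1
    exact (hIS (cl v) v rfl).2.2.2.1 h1
  · intro v h1 h2
    exact (hIS (cl v) v rfl).2.2.2.2.1 h1 h2
  · intro v h1
    obtain ⟨g1, g2, g3⟩ := (hIS (cl v) v rfl).2.2.2.2.2.1 h1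
    refine ⟨?_, ?_, ?_⟩
    · rw [← g1]
      apply cn_congr
      intro w
      constructor
      · rintro ⟨h2, h3, h4⟩
        have h3' : w ∈ S (cl w) := h3
        have h4' : w ∈ I (cl w) := h4
        rw [h2] at h3' h4'
        exact ⟨h2, h3', h4'⟩
      · rintro ⟨h2, h3, h4⟩
        refine ⟨h2, ?_, ?_⟩
        · show w ∈ S (cl w)
          rw [h2]
          exact h3
        · show w ∈ I (cl w)
          rw [h2]
          exact h4
    · rw [← g2]
      apply cn_congr
      intro w
      constructor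
      · rintro ⟨h2, h3, h4⟩
        have h3' : ¬ w ∈ S (cl w) := h3
        have h4' : w ∈ I (cl w) := h4
        rw [h2] at h3' h4'
        exact ⟨h2, h3', h4'⟩
      · rintro ⟨h2, h3, h4⟩
        refine ⟨h2, ?_, ?_⟩
        · show ¬ w ∈ S (cl w)
          rw [h2]
          exact h3
        · show w ∈ I (cl w)
          rw [h2]
          exact h4
    · rw [← g3]
      apply cn_congr
      intro w
      constructor
      · rintro ⟨h3, h2⟩
        have h3' : w ∈ S (cl w) := h3
        rw [h2] at h3'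
        exact ⟨h3', h2⟩
      · rintro ⟨h3, h2⟩
        refine ⟨?_, h2⟩
        show w ∈ S (cl w)
        rw [h2]
        exact h3
  · intro v h1 h2
    exact (hIS (cl v) v rfl).2.2.2.2.2.2.1 h1 h2
  · intro v h1
    rw [← (hIS (cl v) v rfl).2.2.2.2.2.2.2 h1]
    congr 1
    apply cn_congr
    intro w
    constructor
    · rintro ⟨h2, h3⟩
      have h3' : w ∈ I (cl w) := h3
      rw [h2] at h3'
      exact ⟨h2, h3'⟩
    · rintro ⟨h2, h3⟩
      refine ⟨h2, ?_⟩
      show w ∈ I (cl w)
      rw [h2]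
      exact h3

end Pool.Agent.T9h56.LD
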